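import Pool.Agent.Helper84.OB.Stmts

set_option autoImplicit false

universe u

open Set Pool.Agent.Helper84.BT Pool.Agent.Helper84.OB
open scoped Matroid

namespace Pool.Agent.Helper88.OB

theorem st_WZ (hMT : ST_MT.{u}) : ST_WZ.{u} := by
  intro α _ M X Y hT hX hY hpos
  set S : Set (Set α) := {W | IsCyclicFlat M W ∧ Y ⊆ W ∧
    rk M X + rk M W ≤ rk M (X ∪ Y) + rk M (X ∩ W)} with hS
  have hXYE : X ∪ Y ⊆ M.E := union_subset hX.subset_ground hY.subset_ground
  have hne : S.Nonempty := by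
    refine ⟨M.closure (X ∪ Y), ?_, ?_, ?_⟩
    · exact (hX.isCyclic.union hY.isCyclic).isCyclicFlat_closure
    · exact subset_union_right.trans (M.subset_closure (X ∪ Y) hXYE)
    · have h1 : X ∩ M.closure (X ∪ Y) = X :=
        inter_eq_left.2 (subset_union_left.trans (M.subset_closure (X ∪ Y) hXYE))
      rw [h1, rk_closure]
      omega
  obtain ⟨W₁, hW₁, hmin⟩ := Set.exists_min_image S Set.ncard (Set.toFinite S) hne
  have hsub : ∀ W ∈ S, W₁ ⊆ W := by
    intro W hW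
    obtain ⟨V, hV1, hV2, hV3, hV4⟩ := hMT α M X Y W₁ W hT hX.1 hY hW₁.1 hW₁.2.1 hW₁.2.2
      hW.1 hW.2.1 hW.2.2
    have hle := hmin V ⟨hV1, hV2, hV4⟩
    have hVW : V ⊆ W₁ := hV3.trans inter_subset_left
    have heq : V = W₁ := Set.eq_of_subset_of_ncard_le hVW hle (Set.toFinite W₁)
    rw [← heq]
    exact hV3.trans inter_subset_right
  have hneY : Y ≠ W₁ := by
    intro h
    have h2 := hW₁.2.2
    rw [← h] at h2
    omega
  obtain ⟨w, hw1, hw2⟩ := Set.exists_of_ssubset (hW₁.2.1.ssubset_of_ne hneY)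
  exact ⟨w, hw2, fun W h1 h2 h3 => hsub W ⟨h1, h2, h3⟩ hw1⟩

end Pool.Agent.Helper88.OB
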